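import Pool.Agent.helper94.EU.SpecII

/-!
# Row `eu:COR` (MP_ad8ced_nt): the core, parameters
-/

set_option autoImplicit false

open Finset

namespace Pool.Agent.EU

open Pool.Agent.FI Pool.Agent.FJ

/-! ### Numbers -/

theorem COR_a {C q k K P L M : ℝ} (hC : 0 < C) (hq0 : 0 ≤ q) (hq : q ≤ P) (hk : 1 ≤ k) (hkP : k ≤ P)
    (hK : K = 2 * k ^ 3) (hL : 1 ≤ L) (hCL : 1024 * C ≤ L) (hM : 0 ≤ M) :
    C * (q ^ 4 * K ^ 6 * k) * (2 * L) ^ 2 * (M / (P ^ 24 * L ^ 10)) ≤ M * L ^ 6 / (4 * k) := by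
  have hk0 : 0 < k := by linarith
  have hP0 : 0 < P := by linarith
  have hL0 : 0 < L := by linarith
  rw [le_div_iff₀ (by positivity)]
  have h1 : q ^ 4 * k ^ 20 / P ^ 24 ≤ 1 := by
    rw [div_le_one (by positivity)]
    calc q ^ 4 * k ^ 20 ≤ P ^ 4 * P ^ 20 :=
          mul_le_mul (pow_le_pow_left₀ hq0 hq 4) (pow_le_pow_left₀ hk0.le hkP 20) (by positivity) (by positivity)
      _ = P ^ 24 := by ring
  have h2 : M / L ^ 8 ≤ M := div_le_self hM (one_le_pow₀ hL)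
  have hL6 : L ≤ L ^ 6 := le_self_pow₀ hL (by norm_num)
  calc C * (q ^ 4 * K ^ 6 * k) * (2 * L) ^ 2 * (M / (P ^ 24 * L ^ 10)) * (4 * k)
      = (1024 * C) * (q ^ 4 * k ^ 20 / P ^ 24) * (M / L ^ 8) := by
        rw [hK]
        field_simp
        ring
    _ ≤ L * 1 * M := by
        refine mul_le_mul (mul_le_mul hCL h1 (by positivity) hL0.le) h2 (by positivity) (by positivity)
    _ ≤ M * L ^ 6 := by
        rw [mul_one, mul_comm]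
        exact mul_le_mul_of_nonneg_left hL6 hM

theorem COR_s {X a n K g : ℝ} (hX : 0 < X) (ha : 0 < a) (hn : 0 < n) (hK : 0 < K) (hg : 0 < g)
    (h1 : X * g ≤ a ^ 2) (h2 : X ^ 2 * K ^ 2 ≤ n * a ^ 2) :
    (X / a) ^ 4 * (a / (X * K) * (n * (a / (X * K)) + √n) * (X / ((X / a) ^ 2 * g) + 1) ^ 2) ≤
      8 * (n * a ^ 2) / (K ^ 2 * g ^ 2) := by
  have e1 : X / ((X / a) ^ 2 * g) = a ^ 2 / (X * g) := by
    field_simp
  have h3 : 1 ≤ a ^ 2 / (X * g) := by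
    rw [one_le_div (by positivity)]
    exact h1
  have h4 : X / ((X / a) ^ 2 * g) + 1 ≤ 2 * (a ^ 2 / (X * g)) := by
    rw [e1]
    linarith
  have h5 : √n ≤ n * (a / (X * K)) := by
    rw [Real.sqrt_le_left (by positivity)]
    have e2 : (n * (a / (X * K))) ^ 2 = n * ((n * a ^ 2) / (X ^ 2 * K ^ 2)) := by
      field_simp
    rw [e2]
    have h6 : 1 ≤ (n * a ^ 2) / (X ^ 2 * K ^ 2) := by
      rw [one_le_div (by positivity)]
      exact h2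
    calc n = n * 1 := (mul_one n).symm
      _ ≤ n * ((n * a ^ 2) / (X ^ 2 * K ^ 2)) := mul_le_mul_of_nonneg_left h6 hn.le
  have h7 : (X / ((X / a) ^ 2 * g) + 1) ^ 2 ≤ (2 * (a ^ 2 / (X * g))) ^ 2 :=
    pow_le_pow_left₀ (by positivity) h4 2
  calc (X / a) ^ 4 * (a / (X * K) * (n * (a / (X * K)) + √n) * (X / ((X / a) ^ 2 * g) + 1) ^ 2)
      ≤ (X / a) ^ 4 * (a / (X * K) * (n * (a / (X * K)) + n * (a / (X * K))) * (2 * (a ^ 2 / (X * g))) ^ 2) := by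
        refine mul_le_mul_of_nonneg_left ?_ (by positivity)
        refine mul_le_mul ?_ h7 (by positivity) (by positivity)
        exact mul_le_mul_of_nonneg_left (by linarith) (by positivity)
    _ = 8 * (n * a ^ 2) / (K ^ 2 * g ^ 2) := by
        field_simp
        ring

theorem COR_b {C q k K P L M g S : ℝ} (hC : 0 < C) (hq0 : 0 ≤ q) (hq : q ≤ P) (hk : 1 ≤ k) (hkP : k ≤ P)
    (hK : K = 2 * k ^ 3) (hL : 1 ≤ L) (hg : 0 < g) (hCL : 18432 * C * P ^ 18 ≤ g ^ 2) (hM : 0 ≤ M)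
    (hS : S ≤ 8 * M / (K ^ 2 * g ^ 2)) :
    C * (q ^ 4 * K ^ 6 * k) * (2 * L) ^ 2 * ((3 * L) ^ 2 * S) ≤ M * L ^ 6 / (4 * k) := by
  have hk0 : 0 < k := by linarith
  have hP0 : 0 < P := by linarith
  have hL0 : 0 < L := by linarith
  have hK0 : 0 < K := by rw [hK]; positivity
  rw [le_div_iff₀ (by positivity)]
  have h1 : q ^ 4 * k ^ 14 ≤ P ^ 18 := by
    calc q ^ 4 * k ^ 14 ≤ P ^ 4 * P ^ 14 :=
          mul_le_mul (pow_le_pow_left₀ hq0 hq 4) (pow_le_pow_left₀ hk0.le hkP 14) (by positivity) (by positivity)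
      _ = P ^ 18 := by ring
  have h2 : (18432 * C) * (q ^ 4 * k ^ 14) / g ^ 2 ≤ 1 := by
    rw [div_le_one (by positivity)]
    exact (mul_le_mul_of_nonneg_left h1 (by positivity)).trans hCL
  have hL6 : L ^ 4 ≤ L ^ 6 := pow_le_pow_right₀ hL (by norm_num)
  calc C * (q ^ 4 * K ^ 6 * k) * (2 * L) ^ 2 * ((3 * L) ^ 2 * S) * (4 * k)
      ≤ C * (q ^ 4 * K ^ 6 * k) * (2 * L) ^ 2 * ((3 * L) ^ 2 * (8 * M / (K ^ 2 * g ^ 2))) * (4 * k) := by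
        refine mul_le_mul_of_nonneg_right (mul_le_mul_of_nonneg_left
          (mul_le_mul_of_nonneg_left hS (by positivity)) (by positivity)) (by positivity)
    _ = ((18432 * C) * (q ^ 4 * k ^ 14) / g ^ 2) * (M * L ^ 4) := by
        rw [hK]
        field_simp
        ring
    _ ≤ 1 * (M * L ^ 4) := mul_le_mul_of_nonneg_right h2 (by positivity)
    _ ≤ M * L ^ 6 := by
        rw [one_mul]
        exact mul_le_mul_of_nonneg_left hL6 hM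

theorem COR_c {C k K P L n a X G : ℝ} (hC : 0 < C) (hk : 1 ≤ k) (hkP : k ≤ P)
    (hK : K = 2 * k ^ 3) (hL : 1 ≤ L) (hCL : 216 * C ≤ L) (hn : 0 ≤ n) (hX : 0 ≤ X)
    (hG : G ≤ 3 * L) (h : 576 * C * P ^ 2 * L * X ≤ a ^ 2) :
    C * (2 * L) ^ 2 * (3 * L) ^ 2 * (n * a ^ 2 * (k ^ 2 / K + 1 / k) + k * n * X * (1 + G)) ≤
      2 * (n * a ^ 2 * L ^ 6 / (4 * k)) := by
  have hk0 : 0 < k := by linarith
  have hP0 : 0 < P := by linarith
  have hL0 : 0 < L := by linarith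
  have e0 : 2 * (n * a ^ 2 * L ^ 6 / (4 * k)) = (n * a ^ 2 * L ^ 6 * 2) / (4 * k) := by ring
  rw [e0, le_div_iff₀ (by positivity)]
  have e1 : C * (2 * L) ^ 2 * (3 * L) ^ 2 * (n * a ^ 2 * (k ^ 2 / K + 1 / k) + k * n * X * (1 + G)) * (4 * k) =
      (216 * C) * L ^ 4 * (n * a ^ 2) + (144 * C * k ^ 2 * X * (1 + G)) * (n * L ^ 4) := by
    rw [hK]
    field_simp
    ring
  rw [e1]
  have h1 : (216 * C) * L ^ 4 * (n * a ^ 2) ≤ L ^ 6 * (n * a ^ 2) := by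
    refine mul_le_mul_of_nonneg_right ?_ (by positivity)
    have hL2 : L ≤ L ^ 2 := le_self_pow₀ hL (by norm_num)
    calc (216 * C) * L ^ 4 ≤ L ^ 2 * L ^ 4 := mul_le_mul_of_nonneg_right (hCL.trans hL2) (by positivity)
      _ = L ^ 6 := by ring
  have h2 : 144 * C * k ^ 2 * X * (1 + G) ≤ a ^ 2 := by
    refine le_trans ?_ h
    have h3 : 1 + G ≤ 4 * L := by linarith
    calc 144 * C * k ^ 2 * X * (1 + G) ≤ 144 * C * P ^ 2 * X * (4 * L) := by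
          refine (mul_le_mul_of_nonneg_left h3 (by positivity)).trans ?_
          refine mul_le_mul_of_nonneg_right ?_ (by positivity)
          refine mul_le_mul_of_nonneg_right ?_ hX
          exact mul_le_mul_of_nonneg_left (pow_le_pow_left₀ hk0.le hkP 2) (by positivity)
      _ = 576 * C * P ^ 2 * L * X := by ring
  have h4 : (144 * C * k ^ 2 * X * (1 + G)) * (n * L ^ 4) ≤ a ^ 2 * (n * L ^ 6) := by
    have hL6 : L ^ 4 ≤ L ^ 6 := pow_le_pow_right₀ hL (by norm_num)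
    refine mul_le_mul h2 (mul_le_mul_of_nonneg_left hL6 hn) (by positivity) (by positivity)
  calc (216 * C) * L ^ 4 * (n * a ^ 2) + (144 * C * k ^ 2 * X * (1 + G)) * (n * L ^ 4)
      ≤ L ^ 6 * (n * a ^ 2) + a ^ 2 * (n * L ^ 6) := add_le_add h1 h4
    _ = n * a ^ 2 * L ^ 6 * 2 := by ring

/-! ### Large `x` -/

theorem COR_ev (c : ℝ) (s : ℕ) {b : ℝ} (hb : 0 < b) :
    ∀ᶠ x : ℕ in Filter.atTop, c * Real.log x ^ s ≤ (x : ℝ) ^ b := by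
  have h := isLittleO_log_rpow_rpow_atTop (s : ℝ) hb
  have h1 := (h.const_mul_left c).bound (zero_lt_one)
  have h2 := (tendsto_natCast_atTop_atTop (R := ℝ)).eventually h1
  filter_upwards [h2] with x hx
  have e : ‖((x : ℝ) ^ b)‖ = (x : ℝ) ^ b := Real.norm_of_nonneg (by positivity)
  rw [one_mul, e, Real.rpow_natCast] at hx
  exact (le_abs_self _).trans hx

theorem COR_log (c : ℝ) : ∀ᶠ x : ℕ in Filter.atTop, c ≤ Real.log x :=
  (Real.tendsto_log_atTop.comp (tendsto_natCast_atTop_atTop (R := ℝ))).eventually_ge_atTop c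

theorem COR (hERR : ERR_stmt) (hMOD : MOD_stmt) : COR_stmt := by
  obtain ⟨C₁, hC₁, HE⟩ := hERR
  obtain ⟨C₂, hC₂, HM⟩ := hMOD
  intro η hη E₁
  have hev : ∀ᶠ x : ℕ in Filter.atTop, (2 ≤ Real.log x ∧ 1024 * C₂ ≤ Real.log x ∧ 216 * C₁ ≤ Real.log x) ∧
      (4 * Real.log x ^ 0 ≤ (x : ℝ) ^ (η / 4) ∧ 4 * Real.log x ^ (6 * E₁) ≤ (x : ℝ) ^ η ∧
        2 * Real.log x ^ (3 * E₁) ≤ (x : ℝ) ^ (1 / 3 : ℝ)) ∧
      (18432 * C₂) * Real.log x ^ (18 * E₁) ≤ (x : ℝ) ^ (η / 2) ∧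
      (576 * C₁) * Real.log x ^ (2 * E₁ + 1) ≤ (x : ℝ) ^ (1 / 3 : ℝ) :=
    (((COR_log 2).and ((COR_log _).and (COR_log _))).and
      (((COR_ev 4 0 (by positivity)).and ((COR_ev 4 (6 * E₁) hη).and (COR_ev 2 (3 * E₁) (by positivity)))).and
        ((COR_ev _ (18 * E₁) (by positivity)).and (COR_ev _ (2 * E₁ + 1) (by positivity)))))
  obtain ⟨x₀, hx₀⟩ := Filter.eventually_atTop.1 hev
  refine ⟨24 * E₁ + 10, max x₀ 1, ?_⟩
  intro x N A K₁ q β Ω f₁ f₂ hx hA hAx hN hNA hK₁ hK₁L hq hqL hβ hΩ hf₁ hf₂ hYH hper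
  obtain ⟨⟨l2, lC2, lC1⟩, ⟨x4, x6, x3⟩, x18, x2⟩ := hx₀ x ((le_max_left _ _).trans hx)
  have hx1 : 1 ≤ x := (le_max_right _ _).trans hx
  obtain ⟨L, hL⟩ : ∃ L, L = Real.log x := ⟨_, rfl⟩
  obtain ⟨X, hX⟩ : ∃ X : ℝ, X = x := ⟨_, rfl⟩
  obtain ⟨a, ha⟩ : ∃ a : ℝ, a = A := ⟨_, rfl⟩
  obtain ⟨n, hn⟩ : ∃ n : ℝ, n = N := ⟨_, rfl⟩
  obtain ⟨k, hk⟩ : ∃ k : ℝ, k = K₁ := ⟨_, rfl⟩
  obtain ⟨Q, hQ⟩ : ∃ Q : ℝ, Q = q := ⟨_, rfl⟩
  rw [← hL] at l2 lC2 lC1 x4 x6 x3 x18 x2 hK₁L hqL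
  rw [← hX] at x4 x6 x3 x18 x2 hA hN
  rw [← ha] at hA hN
  rw [← hn] at hN
  rw [← hk] at hK₁L
  rw [← hQ] at hqL
  have hX1 : 1 ≤ X := by rw [hX]; exact_mod_cast hx1
  have hX0 : 0 < X := by linarith
  have hL1 : 1 ≤ L := by linarith
  have hL0 : 0 < L := by linarith
  have hk1 : 1 ≤ k := by rw [hk]; exact_mod_cast hK₁
  have hQ1 : 1 ≤ Q := by rw [hQ]; exact_mod_cast hq
  have hax : a ≤ X := by rw [ha, hX]; exact_mod_cast hAx
  have ha1 : 1 ≤ a := (Real.one_le_rpow hX1 (by linarith)).trans hA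
  have ha0 : 0 < a := by linarith
  -- `a ^ 2 ≥ X ^ (4 / 3)`, `a ^ 2 ≥ X * X ^ (η / 4)`
  have haa : X ^ (4 / 3 + 2 * η) ≤ a ^ 2 := by
    calc X ^ (4 / 3 + 2 * η) = (X ^ (2 / 3 + η)) ^ 2 := by
          rw [← Real.rpow_natCast, ← Real.rpow_mul hX0.le]
          congr 1
          push_cast
          ring
      _ ≤ a ^ 2 := pow_le_pow_left₀ (by positivity) hA 2
  have haa1 : X * X ^ (1 / 3 : ℝ) ≤ a ^ 2 := by
    refine le_trans ?_ haa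
    calc X * X ^ (1 / 3 : ℝ) = X ^ (1 : ℝ) * X ^ (1 / 3 : ℝ) := by rw [Real.rpow_one]
      _ = X ^ (4 / 3 : ℝ) := by rw [← Real.rpow_add hX0]; norm_num
      _ ≤ X ^ (4 / 3 + 2 * η) := Real.rpow_le_rpow_of_exponent_le hX1 (by linarith)
  have haa2 : X * X ^ (η / 4) ≤ a ^ 2 := by
    refine le_trans ?_ haa
    calc X * X ^ (η / 4) = X ^ (1 : ℝ) * X ^ (η / 4) := by rw [Real.rpow_one]
      _ = X ^ (1 + η / 4) := by rw [← Real.rpow_add hX0]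
      _ ≤ X ^ (4 / 3 + 2 * η) := Real.rpow_le_rpow_of_exponent_le hX1 (by linarith)
  have hXa2 : X ≤ a ^ 2 := by
    refine le_trans ?_ haa1
    have h : 1 ≤ X ^ (1 / 3 : ℝ) := Real.one_le_rpow hX1 (by norm_num)
    calc X = X * 1 := (mul_one X).symm
      _ ≤ X * X ^ (1 / 3 : ℝ) := mul_le_mul_of_nonneg_left h hX0.le
  have hXη : 1 ≤ X ^ η := Real.one_le_rpow hX1 hη.le
  have hn0 : 0 < n := by
    have h1 : 0 < a ^ 2 * n := lt_of_lt_of_le (by positivity) hN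
    exact pos_of_mul_pos_right h1 (by positivity)
  have hN1 : 1 ≤ N := by
    rw [hn] at hn0
    exact_mod_cast hn0
  have hn1 : 1 ≤ n := by rw [hn]; exact_mod_cast hN1
  have hna : n ≤ a ^ 2 := by rw [hn, ha]; exact_mod_cast hNA
  have hXna : X ≤ n * a := by
    have h1 : X ^ 2 ≤ (n * a) * X := by
      calc X ^ 2 = X ^ 2 * 1 := (mul_one _).symm
        _ ≤ X ^ 2 * X ^ η := mul_le_mul_of_nonneg_left hXη (by positivity)
        _ ≤ a ^ 2 * n := hN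
        _ = (n * a) * a := by ring
        _ ≤ (n * a) * X := mul_le_mul_of_nonneg_left hax (by positivity)
    have h2 : X * X ≤ (n * a) * X := by
      calc X * X = X ^ 2 := by ring
        _ ≤ _ := h1
    exact le_of_mul_le_mul_right h2 hX0
  -- the parameter `K = 2 K₁ ^ 3`
  obtain ⟨P, hP⟩ : ∃ P, P = L ^ E₁ := ⟨_, rfl⟩
  have hP1 : 1 ≤ P := by rw [hP]; exact one_le_pow₀ hL1
  have hP0 : 0 < P := by linarith
  have hkP : k ≤ P := by rw [hP]; exact hK₁L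
  have hQP : Q ≤ P := by rw [hP]; exact hqL
  obtain ⟨K, hK⟩ : ∃ K : ℝ, K = 2 * k ^ 3 := ⟨_, rfl⟩
  have hKc : ((2 * K₁ ^ 3 : ℕ) : ℝ) = K := by rw [hK, hk]; push_cast; ring
  have hK0 : 0 < K := by rw [hK]; positivity
  have hKP : K ≤ 2 * P ^ 3 := by
    rw [hK]
    exact mul_le_mul_of_nonneg_left (pow_le_pow_left₀ (by linarith) hkP 3) (by norm_num)
  have eP : ∀ m : ℕ, L ^ (m * E₁) = P ^ m := fun m => by rw [hP, ← pow_mul, mul_comm]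
  have hE : L ^ (24 * E₁ + 10) = P ^ 24 * L ^ 10 := by rw [pow_add, eP]
  have hKE : K ≤ L ^ (24 * E₁ + 10) := by
    rw [hE]
    refine hKP.trans ?_
    have h1 : P ^ 3 ≤ P ^ 24 := pow_le_pow_right₀ hP1 (by norm_num)
    have h2 : (2 : ℝ) ≤ L ^ 10 := l2.trans (le_self_pow₀ hL1 (by norm_num))
    calc 2 * P ^ 3 ≤ L ^ 10 * P ^ 24 := mul_le_mul h2 h1 (by positivity) (by positivity)
      _ = P ^ 24 * L ^ 10 := mul_comm _ _
  have hQE : Q ≤ L ^ (24 * E₁ + 10) := by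
    rw [hE]
    refine hQP.trans ?_
    have h1 : P ≤ P ^ 24 := le_self_pow₀ hP1 (by norm_num)
    calc P = P * 1 := (mul_one P).symm
      _ ≤ P ^ 24 * L ^ 10 := mul_le_mul h1 (one_le_pow₀ hL1) zero_le_one (by positivity)
  have hK2 : 2 * K₁ ≤ 2 * K₁ ^ 3 := Nat.mul_le_mul_left 2 (Nat.le_self_pow (by norm_num) K₁)
  have hK1 : 1 ≤ 2 * K₁ ^ 3 := by
    have : 0 < K₁ ^ 3 := Nat.pow_pos hK₁
    omega
  have hxK : x * (2 * K₁ ^ 3) ≤ A ^ 2 := by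
    have h1 : X * K ≤ a ^ 2 := by
      refine le_trans ?_ haa1
      refine mul_le_mul_of_nonneg_left (hKP.trans ?_) hX0.le
      rw [← eP]
      exact x3
    have h2 : ((x * (2 * K₁ ^ 3) : ℕ) : ℝ) ≤ ((A ^ 2 : ℕ) : ℝ) := by
      rw [Nat.cast_mul, hKc, ← hX]
      push_cast
      rw [← ha]
      exact h1
    exact_mod_cast h2
  have hxA2 : x ≤ A ^ 2 := by
    rw [hX, ha] at hXa2
    exact_mod_cast hXa2
  have hxNA : x ≤ N * A := by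
    rw [hX, hn, ha] at hXna
    exact_mod_cast hXna
  have hA1 : 1 ≤ A := by
    rw [ha] at ha1
    exact_mod_cast ha1
  obtain ⟨g, hg⟩ : ∃ g, g = X ^ (η / 4) := ⟨_, rfl⟩
  have hg0 : 0 < g := by rw [hg]; positivity
  have hT4 : 4 ≤ ((x : ℝ) / A) ^ 2 * (x : ℝ) ^ (η / 4) := by
    rw [← hX, ← ha]
    have h1 : 1 ≤ X / a := by rw [one_le_div ha0]; exact hax
    have h2 : 1 ≤ (X / a) ^ 2 := one_le_pow₀ h1
    rw [pow_zero, mul_one] at x4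
    calc (4 : ℝ) ≤ X ^ (η / 4) := x4
      _ = 1 * X ^ (η / 4) := (one_mul _).symm
      _ ≤ (X / a) ^ 2 * X ^ (η / 4) := mul_le_mul_of_nonneg_right h2 (by positivity)
  obtain ⟨θ, hθ⟩ := HM x N A (2 * K₁ ^ 3) K₁ (24 * E₁ + 10) q (((x : ℝ) / A) ^ 2 * (x : ℝ) ^ (η / 4))
    (2 * Real.log x) (3 * Real.log x) β Ω f₁ f₂ hx1 hN1 hA1 hAx hK₁ hK2 hT4 hxK hf₁ hf₂ hβ hΩ hYH
    (by rw [hKc, ← hL]; exact hKE) hq (by rw [← hQ, ← hL]; exact hQE) hper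
  have hE2 := HE x N A (2 * K₁ ^ 3) K₁ hx1 hN1 hA1 hAx hK₁ hK2 hxA2 hxNA (2 * Real.log x) (3 * Real.log x) β Ω f₁ f₂
    hβ hΩ hf₁ hf₂ θ
  unfold hh at hθ
  rw [hKc, ← hL, ← hX, ← ha, ← hn, ← hk, ← hQ, ← hg, hE] at hθ
  rw [hKc, ← hL, ← hX, ← ha, ← hn, ← hk] at hE2
  rw [← hL, ← ha, ← hn, ← hk]
  have hM0 : 0 ≤ n * a ^ 2 := by positivity
  have g2 : g ^ 2 = X ^ (η / 2) := by
    rw [hg, ← Real.rpow_natCast, ← Real.rpow_mul hX0.le]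
    congr 1
    push_cast
    ring
  have b1 := COR_a (M := n * a ^ 2) hC₂ (by linarith : (0 : ℝ) ≤ Q) hQP hk1 hkP hK hL1 lC2 hM0
  have hs := COR_s (X := X) (a := a) (n := n) (K := K) (g := g) hX0 ha0 hn0 hK0 hg0 (by rw [hg]; exact haa2) (by
    calc X ^ 2 * K ^ 2 ≤ X ^ 2 * X ^ η := by
          refine mul_le_mul_of_nonneg_left ?_ (by positivity)
          calc K ^ 2 ≤ (2 * P ^ 3) ^ 2 := pow_le_pow_left₀ hK0.le hKP 2
            _ = 4 * P ^ 6 := by ring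
            _ ≤ X ^ η := by rw [← eP]; exact x6
      _ ≤ a ^ 2 * n := hN
      _ = n * a ^ 2 := mul_comm _ _)
  have b2 := COR_b (M := n * a ^ 2) hC₂ (by linarith : (0 : ℝ) ≤ Q) hQP hk1 hkP hK hL1 hg0
    (by rw [g2, ← eP]; exact x18) hM0 hs
  have hG : Real.log ((N * A : ℕ) : ℝ) ≤ 3 * L := by
    have h1 : ((N * A : ℕ) : ℝ) ≤ X ^ 3 := by
      push_cast
      rw [← hn, ← ha]
      calc n * a ≤ a ^ 2 * a := mul_le_mul_of_nonneg_right hna ha0.le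
        _ = a ^ 3 := by ring
        _ ≤ X ^ 3 := pow_le_pow_left₀ ha0.le hax 3
    have h0 : (0 : ℝ) < ((N * A : ℕ) : ℝ) := by
      have : 0 < N * A := Nat.mul_pos hN1 hA1
      exact_mod_cast this
    calc Real.log ((N * A : ℕ) : ℝ) ≤ Real.log (X ^ 3) := Real.log_le_log h0 h1
      _ = 3 * L := by
        rw [Real.log_pow, hL, hX]
        norm_num
  have b3 := COR_c (n := n) (a := a) (X := X) (G := Real.log ((N * A : ℕ) : ℝ)) hC₁ hk1 hkP hK hL1 lC1 hn0.le hX0.le hG (by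
    refine le_trans ?_ haa1
    have e9 : L ^ (2 * E₁ + 1) = P ^ 2 * L := by rw [← eP, pow_succ]
    calc 576 * C₁ * P ^ 2 * L * X = ((576 * C₁) * L ^ (2 * E₁ + 1)) * X := by
          rw [e9]
          ring
      _ ≤ X ^ (1 / 3 : ℝ) * X := mul_le_mul_of_nonneg_right x2 hX0.le
      _ = X * X ^ (1 / 3 : ℝ) := mul_comm _ _)
  have hMM : ‖MM x N A (2 * K₁ ^ 3) K₁ θ β Ω f₁ f₂‖ ≤ n * a ^ 2 * L ^ 6 / (4 * k) + n * a ^ 2 * L ^ 6 / (4 * k) := by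
    refine hθ.trans ?_
    rw [mul_add]
    exact add_le_add b1 b2
  have hsub : ‖CR x N A K₁ β Ω f₁ f₂ - MM x N A (2 * K₁ ^ 3) K₁ θ β Ω f₁ f₂‖ ≤ 2 * (n * a ^ 2 * L ^ 6 / (4 * k)) :=
    hE2.trans b3
  have htri : ‖CR x N A K₁ β Ω f₁ f₂‖ ≤ ‖CR x N A K₁ β Ω f₁ f₂ - MM x N A (2 * K₁ ^ 3) K₁ θ β Ω f₁ f₂‖ +
      ‖MM x N A (2 * K₁ ^ 3) K₁ θ β Ω f₁ f₂‖ := by
    have := norm_add_le (CR x N A K₁ β Ω f₁ f₂ - MM x N A (2 * K₁ ^ 3) K₁ θ β Ω f₁ f₂) (MM x N A (2 * K₁ ^ 3) K₁ θ β Ω f₁ f₂)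
    rwa [sub_add_cancel] at this
  have hfin : n * a ^ 2 * L ^ 6 / k = 4 * (n * a ^ 2 * L ^ 6 / (4 * k)) := by
    have hk0 : k ≠ 0 := by linarith
    field_simp
  rw [hfin]
  linarith

end Pool.Agent.EU
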