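import Pool.Agent.helper52.EU.SpecY

/-!
# Row `eu:PMX` (MP_ad8ced_nt): mean values of products
-/

set_option autoImplicit false

open Finset

namespace Pool.Agent.EU

open Pool.Agent.FI Pool.Agent.HK Pool.Agent.BP Pool.Agent.YB
open Pool.Agent.CH (nit)

theorem PMX (hPRC : PRC_stmt) (hMVH : MVH_stmt) : PMX_stmt := by
  intro r
  obtain ⟨C, E, hC, hM⟩ := hMVH (3 * r)
  refine ⟨C, E, hC, ?_⟩
  intro α Ψ c hX M₁ V f N hM₁ hV hfV hN
  obtain ⟨hMU, hc, hPsi⟩ := hX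
  obtain ⟨b, hb, hbΨ⟩ := hPRC r f N V hV hfV hN
  obtain ⟨M, hMdef⟩ : ∃ M, M = ∏ k, N k := ⟨_, rfl⟩
  rw [← hMdef] at hb hbΨ
  have hM1 : 1 ≤ M := by
    rw [hMdef]
    exact Nat.one_le_iff_ne_zero.2 (Finset.prod_ne_zero_iff.2 fun k _ => Nat.one_le_iff_ne_zero.1 (hN k))
  have hMc : (∏ k, (N k : ℝ)) = (M : ℝ) := by
    rw [hMdef]
    push_cast
    rfl
  have hprod : ∀ m : ℤ, ∏ k, ‖∑ z ∈ FF (N k), f k z * Ψ m z‖ ^ 2 =
      ‖∑ v ∈ FF M, (b v * c v) * Complex.exp (((fr α m * yy v : ℝ) : ℂ) * Complex.I)‖ ^ 2 := by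
    intro m
    have h1 := hbΨ (Ψ m) (hMU m)
    rw [Finset.prod_pow, ← norm_prod, h1]
    congr 2
    refine sum_congr rfl fun v hv => ?_
    have hFd : Fd v := by
      classical
      unfold FF at hv
      exact (mem_filter.1 hv).2.1
    rw [hPsi m v hFd, mul_assoc]
  rw [sum_congr rfl fun m _ => hprod m, hMc]
  have hbV : ∀ v ∈ FF M, ‖b v * c v‖ ≤ V ^ r * (#(nn v).divisors : ℝ) ^ (3 * r) := by
    intro v hv
    rw [norm_mul]
    calc ‖b v‖ * ‖c v‖ ≤ ‖b v‖ * 1 := mul_le_mul_of_nonneg_left (hc v) (norm_nonneg _)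
      _ = ‖b v‖ := mul_one _
      _ ≤ _ := hb v hv
  have h := hM M M₁ (V ^ r) α _ hM1 hM₁ (by positivity) hbV
  have e : (V ^ r) ^ 2 = V ^ (2 * r) := by rw [← pow_mul, mul_comm]
  rw [e] at h
  exact h

end Pool.Agent.EU
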